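import Pool.Agent.Helper30.BG.Goals

/-! Packet BG-B0F (MP_66e6f4_an): the slope at minus infinity is positive. -/

open InnerProductSpace Metric Set Filter Topology MeasureTheory
open scoped ContDiff Laplacian

namespace Pool.Agent.Helper42.BG

open Pool.Agent.Helper30.BG

theorem hasDerivAt_Fp {f : ℝ → ℝ} (hf : Continuous f) (a0 v : ℝ) :
    HasDerivAt (Fp f a0) (f v) v :=
  (hf.integral_hasStrictDerivAt a0 v).hasDerivAt

theorem hasDerivAt_inv_sqrt {f : ℝ → ℝ} (hf : Continuous f) {a0 v : ℝ} (hF : 0 < Fp f a0 v) :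
    HasDerivAt (fun t => 1 / √(2 * Fp f a0 t)) (-(f v / √(2 * Fp f a0 v) ^ 3)) v := by
  have h1 : HasDerivAt (fun t => 2 * Fp f a0 t) (2 * f v) v := (hasDerivAt_Fp hf a0 v).const_mul 2
  have h2 := h1.sqrt (by positivity)
  have h3 : 0 < √(2 * Fp f a0 v) := Real.sqrt_pos.2 (by positivity)
  have h4 := h2.inv h3.ne'
  have h5 : (fun t => 1 / √(2 * Fp f a0 t)) = fun t => (√(2 * Fp f a0 t))⁻¹ := by
    funext t
    rw [one_div]
  rw [h5]
  refine h4.congr_deriv ?_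
  field_simp

/-- the inequality for `E = exp(-Λ (x₀ - G(u) - m₀))` -/
theorem lapE {G : E3 → ℝ} {Λ Γ fx m₀ : ℝ} {x : E3} {p : Fin 3 → ℝ}
    (hΓ : 0 < Γ) (hΛ : 0 < Λ) (hfΛ : fx ≤ Λ * Γ)
    (hz : HD2 G x ((1 / Γ) • p) (-(fx / Γ ^ 3) * ∑ i, p i ^ 2 + 1 / Γ * fx)) :
    ContDiffAt ℝ 2 (fun y : E3 => Real.exp (-Λ * (y 0 - G y - m₀))) x ∧
    0 ≤ Δ (fun y : E3 => Real.exp (-Λ * (y 0 - G y - m₀))) x +
      2 * (fx / Γ) * pd 0 (fun y : E3 => Real.exp (-Λ * (y 0 - G y - m₀))) x := by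
  have h1 := (((HD2.coord 0 x).sub hz).sub_const m₀).const_mul (-Λ)
  have h2 := h1.comp (φ := Real.exp) (φ' := Real.exp) Real.contDiff_exp.contDiffAt
    (Eventually.of_forall fun t => Real.hasDerivAt_exp t) (Real.hasDerivAt_exp _)
  refine ⟨h2.cd, ?_⟩
  rw [h2.lap, h2.pd 0]
  obtain ⟨e, he⟩ : ∃ e : ℝ, e = Real.exp (-Λ * (x 0 - G x - m₀)) := ⟨_, rfl⟩
  rw [← he]
  have he0 : 0 < e := by rw [he]; positivity
  simp only [Fin.sum_univ_three, Pi.smul_apply, Pi.sub_apply, smul_eq_mul, Pi.single_eq_same,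
    Pi.single_eq_of_ne (show (1 : Fin 3) ≠ 0 by decide), Pi.single_eq_of_ne (show (2 : Fin 3) ≠ 0 by decide)]
  have hg : fx / Γ ≤ Λ := by rwa [div_le_iff₀ hΓ]
  have key : e * ((-Λ * (1 - 1 / Γ * p 0)) ^ 2 + (-Λ * (0 - 1 / Γ * p 1)) ^ 2 +
      (-Λ * (0 - 1 / Γ * p 2)) ^ 2) +
      e * (-Λ * (0 - (-(fx / Γ ^ 3) * (p 0 ^ 2 + p 1 ^ 2 + p 2 ^ 2) + 1 / Γ * fx))) +
      2 * (fx / Γ) * (e * (-Λ * (1 - 1 / Γ * p 0))) =
      e * Λ * ((1 - p 0 / Γ) ^ 2 + (p 1 / Γ) ^ 2 + (p 2 / Γ) ^ 2) * (Λ - fx / Γ) := by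
    field_simp
    ring
  rw [key]
  have : 0 ≤ Λ - fx / Γ := by linarith
  positivity

theorem b0f (hA : S_B0A) (hS : S_B0S) (hPL : S_PL) : S_B0F := by
  intro f u a0 a1 α K hsol hf0 hα
  have hα0 := hsol.α_pos
  have hF1 : 0 < Fp f a0 a1 := by
    have : 0 < α ^ 2 := by positivity
    linarith
  obtain ⟨c0, Λ, G, hc0, hc1, hΛ, -, hFp, hfΛ, hGcd, hGd, hGbot, hGup, hGeq⟩ :=
    hA f a0 a1 hsol.nl hf0 hF1
  have hfc : Continuous f := hsol.nl.cd.continuous
  have hsq : √(2 * Fp f a0 a1) = α := by rw [← hα, Real.sqrt_sq hα0.le]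
  rw [hsq] at hGup hGeq
  have huc : Continuous u := hsol.cd.continuous
  -- the positive phase
  obtain ⟨P, hP⟩ : ∃ P : Set E3, P = {x | c0 < u x} := ⟨_, rfl⟩
  have mP : ∀ x, x ∈ P ↔ c0 < u x := by
    intro x
    rw [hP]
    rfl
  have hPo : IsOpen P := by
    rw [hP]
    exact isOpen_lt continuous_const huc
  have hPx : ∀ x ∈ P, 0 < x 0 := by
    intro x hx
    by_contra h
    have h1 := hsol.dn x (not_lt.1 h)
    rw [zero_mul] at h1
    have h2 := (mP x).1 hx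
    linarith
  have hPne : P.Nonempty := by
    obtain ⟨R, hR⟩ := hsol.subp (α / 2) (by positivity)
    obtain ⟨t, ht⟩ : ∃ t : ℝ, t = max R 0 + 2 * c0 / α + 1 := ⟨_, rfl⟩
    have ht0 : 0 < t := by
      rw [ht]
      have : 0 ≤ max R 0 := le_max_right _ _
      positivity
    have htR : R ≤ t := by
      have h1 : R ≤ max R 0 := le_max_left _ _
      have h2 : 0 ≤ 2 * c0 / α := by positivity
      rw [ht]
      linarith
    have e1 : (t • eb 0) 0 = t := by
      rw [PiLp.smul_apply, eb_apply, if_pos rfl, smul_eq_mul, mul_one]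
    have e2 : ‖t • eb 0‖ = t := by
      rw [norm_smul, norm_eb, mul_one, Real.norm_of_nonneg ht0.le]
    have h1 := hR (t • eb 0) (by rw [e1]; exact ht0.le) (by rw [e2]; exact htR)
    rw [e1, e2] at h1
    refine ⟨t • eb 0, (mP _).2 ?_⟩
    have h2 : 2 * c0 / α < t := by
      have : 0 ≤ max R 0 := le_max_right _ _
      rw [ht]
      linarith
    have h3 : 2 * c0 < t * α := by rwa [div_lt_iff₀ hα0] at h2
    linarith
  -- the infimum
  have hlow : ∀ x ∈ P, a1 / α - G a1 ≤ x 0 - G (u x) := by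
    intro x hx
    have h1 := hGup (u x) ((mP x).1 hx)
    have h2 := hsol.up x (hPx x hx).le
    have h3 : (u x - a1) / α ≤ x 0 - a1 / α := by
      rw [sub_div]
      have : u x / α ≤ x 0 := by
        rw [div_le_iff₀ hα0]
        linarith
      linarith
    linarith
  obtain ⟨m₀, hm₀⟩ : ∃ m₀ : ℝ, m₀ = sInf ((fun x : E3 => x 0 - G (u x)) '' P) := ⟨_, rfl⟩
  have hbdd : BddBelow ((fun x : E3 => x 0 - G (u x)) '' P) := by
    refine ⟨a1 / α - G a1, ?_⟩
    rintro _ ⟨x, hx, rfl⟩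
    exact hlow x hx
  have hm1 : ∀ x ∈ P, m₀ ≤ x 0 - G (u x) := by
    intro x hx
    rw [hm₀]
    exact csInf_le hbdd ⟨x, hx, rfl⟩
  have hm2 : ∀ ε : ℝ, 0 < ε → ∃ x ∈ P, x 0 - G (u x) < m₀ + ε := by
    intro ε hε
    obtain ⟨_, ⟨x, hx, rfl⟩, h⟩ := Real.lt_sInf_add_pos (hPne.image _) hε
    exact ⟨x, hx, by rw [hm₀]; exact h⟩
  -- the function `E`
  have hΓ : ∀ v, c0 < v → 0 < √(2 * Fp f a0 v) := fun v hv =>
    Real.sqrt_pos.2 (by have := hFp v hv; positivity)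
  have hE : ∀ x ∈ P, ContDiffAt ℝ 2 (fun y : E3 => Real.exp (-Λ * (y 0 - G (u y) - m₀))) x ∧
      0 ≤ Δ (fun y : E3 => Real.exp (-Λ * (y 0 - G (u y) - m₀))) x +
        2 * (f (u x) / √(2 * Fp f a0 (u x))) *
          pd 0 (fun y : E3 => Real.exp (-Λ * (y 0 - G (u y) - m₀))) x := by
    intro x hx
    have hx' := (mP x).1 hx
    have hu2 : HD2 u x (fun i => pd i u x) (f (u x)) :=
      (HD2.mk' hsol.cd.contDiffAt).of_eq rfl (hsol.eq x)
    have h1 : ∀ᶠ t in 𝓝 (u x), HasDerivAt G (1 / √(2 * Fp f a0 t)) t := by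
      filter_upwards [isOpen_Ioi.mem_nhds hx'] with t ht
      exact hGd t ht
    have h2 := hu2.comp (φ := G) (φ' := fun t => 1 / √(2 * Fp f a0 t)) (hGcd _ hx') h1
      (hasDerivAt_inv_sqrt hfc (hFp _ hx'))
    exact lapE (hΓ _ hx') hΛ (hfΛ _) h2
  have hEle : ∀ x ∈ P, Real.exp (-Λ * (x 0 - G (u x) - m₀)) ≤ 1 := by
    intro x hx
    rw [Real.exp_le_one_iff]
    have h1 := hm1 x hx
    have h2 : 0 ≤ Λ * (x 0 - G (u x) - m₀) := mul_nonneg hΛ.le (by linarith)
    linarith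
  have hg : ∀ x ∈ P, 0 ≤ f (u x) / √(2 * Fp f a0 (u x)) ∧
      f (u x) / √(2 * Fp f a0 (u x)) ≤ Λ := by
    intro x hx
    have h1 := hΓ _ ((mP x).1 hx)
    refine ⟨div_nonneg (hsol.nl.nn _) h1.le, ?_⟩
    rw [div_le_iff₀ h1]
    exact hfΛ _
  have hclosed : ∀ ε : ℝ, 0 < ε →
      IsClosed {x | x ∈ P ∧ ε ≤ Real.exp (-Λ * (x 0 - G (u x) - m₀))} := by
    intro ε hε
    have h1 : ∀ᶠ v in 𝓝[>] c0, G v < Real.log ε / Λ - m₀ := hGbot.eventually_lt_atBot _
    obtain ⟨c', hc', h2⟩ := (mem_nhdsGT_iff_exists_Ioo_subset).1 h1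
    have hc'' : c0 < c' := hc'
    have hset : {x | x ∈ P ∧ ε ≤ Real.exp (-Λ * (x 0 - G (u x) - m₀))} =
        {x | c' ≤ u x} ∩ (fun x : E3 => Real.exp (-Λ * (x 0 - G (u x) - m₀))) ⁻¹' (Ici ε) := by
      ext x
      constructor
      · rintro ⟨hx, hx2⟩
        refine ⟨?_, hx2⟩
        by_contra h
        have h3 : u x < c' := not_le.1 h
        have h4 : G (u x) < Real.log ε / Λ - m₀ := h2 ⟨(mP x).1 hx, h3⟩
        have h5 : Real.log ε ≤ -Λ * (x 0 - G (u x) - m₀) := by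
          rw [← Real.exp_le_exp, Real.exp_log hε]
          exact hx2
        have h6 : Λ * (G (u x) + m₀) < Real.log ε := by
          have : Λ * (G (u x) + m₀) < Λ * (Real.log ε / Λ) := by
            apply mul_lt_mul_of_pos_left _ hΛ
            linarith
          rwa [mul_div_cancel₀ _ hΛ.ne'] at this
        have h7 : 0 < Λ * x 0 := mul_pos hΛ (hPx x hx)
        linarith
      · rintro ⟨hx, hx2⟩
        exact ⟨(mP x).2 (lt_of_lt_of_le hc'' hx), hx2⟩
    rw [hset]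
    refine ContinuousOn.preimage_isClosed_of_isClosed ?_ (isClosed_le continuous_const huc)
      isClosed_Ici
    intro x hx
    exact (hE x ((mP x).2 (lt_of_lt_of_le hc'' hx))).1.continuousAt.continuousWithinAt
  have hbar := hS P (fun y : E3 => Real.exp (-Λ * (y 0 - G (u y) - m₀)))
    (fun x => f (u x) / √(2 * Fp f a0 (u x))) Λ hPo hPx (fun x hx => (hE x hx).1) hEle hg
    (fun x hx => (hE x hx).2) hclosed
  obtain ⟨μ, hμ⟩ : ∃ μ : ℝ, μ = 2 * Λ + 1 := ⟨_, rfl⟩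
  rw [← hμ] at hbar
  have hμ0 : 0 < μ := by rw [hμ]; positivity
  -- lower bound for `Y₀ - m₀`
  have hl0 : ∀ t : ℝ, 0 < t → 0 < 1 - Real.exp (-(μ * t)) ∧ 1 - Real.exp (-(μ * t)) < 1 := by
    intro t ht
    have h1 : Real.exp (-(μ * t)) < 1 := by
      rw [Real.exp_lt_one_iff]
      have : 0 < μ * t := by positivity
      linarith
    have h2 : 0 < Real.exp (-(μ * t)) := Real.exp_pos _
    constructor <;> linarith
  have hlog : ∀ t : ℝ, 0 < t → Real.log (1 - Real.exp (-(μ * t))) < 0 := fun t ht =>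
    Real.log_neg (hl0 t ht).1 (hl0 t ht).2
  have hY : ∀ x ∈ P, -Real.log (1 - Real.exp (-(μ * x 0))) ≤ Λ * (x 0 - G (u x) - m₀) := by
    intro x hx
    have h1 := hbar x hx
    have h2 := (Real.log_le_log_iff (Real.exp_pos _) (hl0 _ (hPx x hx)).1).2 h1
    rw [Real.log_exp] at h2
    linarith
  -- the comparison function
  obtain ⟨κ, hκ⟩ : ∃ κ : ℝ, κ = a1 - α * G a1 - α * m₀ := ⟨_, rfl⟩
  obtain ⟨s, hs⟩ : ∃ s : ℝ, s = (1 + |a1 - κ|) / α := ⟨_, rfl⟩
  have hs0 : 0 < s := by rw [hs]; positivity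
  have hs1 : 1 ≤ α * s - a1 + κ := by
    rw [hs, mul_div_cancel₀ _ hα0.ne']
    have := le_abs_self (a1 - κ)
    linarith
  obtain ⟨m, hm⟩ : ∃ m : ℝ, m = min 1 (-(α / Λ) * Real.log (1 - Real.exp (-(μ * s)))) := ⟨_, rfl⟩
  have hmle : m ≤ 1 := by rw [hm]; exact min_le_left _ _
  have hmle2 : m ≤ -(α / Λ) * Real.log (1 - Real.exp (-(μ * s))) := by
    rw [hm]; exact min_le_right _ _
  have hm0 : 0 < m := by
    rw [hm]
    refine lt_min one_pos ?_
    have h1 := hlog s hs0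
    have h2 : 0 < α / Λ := by positivity
    nlinarith
  have hW1 : ∀ x ∈ P, α * x 0 - u x + κ ≤ α * (x 0 - G (u x) - m₀) := by
    intro x hx
    have h1 := hGup (u x) ((mP x).1 hx)
    have h2 : α * G (u x) ≤ α * (G a1 + (u x - a1) / α) := mul_le_mul_of_nonneg_left h1 hα0.le
    have h3 : α * (G a1 + (u x - a1) / α) = α * G a1 + (u x - a1) := by
      rw [mul_add, mul_div_cancel₀ _ hα0.ne']
    rw [hκ]
    linarith
  have hW2 : ∀ x, a1 ≤ u x → α * x 0 - u x + κ = α * (x 0 - G (u x) - m₀) := by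
    intro x hx
    have h1 := hGeq (u x) hx
    have h3 : α * G (u x) = α * G a1 + (u x - a1) := by
      rw [h1, mul_add, mul_div_cancel₀ _ hα0.ne']
    rw [hκ]
    linarith
  have hWcd : ContDiff ℝ 2 (fun x : E3 => α * x 0 - u x + κ) := by
    have h1 : ContDiff ℝ 2 (fun x : E3 => x 0) := contDiff_iff_contDiffAt.2 fun x =>
      (HD2.coord 0 x).cd
    exact ((contDiff_const.mul h1).sub hsol.cd).add contDiff_const
  have hWlap : ∀ x, Δ (fun x : E3 => α * x 0 - u x + κ) x ≤ 0 := by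
    intro x
    have hu2 : HD2 u x (fun i => pd i u x) (f (u x)) :=
      (HD2.mk' hsol.cd.contDiffAt).of_eq rfl (hsol.eq x)
    have h1 := (((HD2.coord 0 x).const_mul α).sub hu2).add_const κ
    rw [h1.lap]
    have := hsol.nl.nn (u x)
    linarith
  have hW : ∀ x : E3, s ≤ x 0 → m ≤ α * x 0 - u x + κ := by
    refine hPL (fun x : E3 => α * x 0 - u x + κ) s m hWcd (fun x _ => hWlap x) ?_ ?_
    · intro x hx
      rcases le_or_gt a1 (u x) with h | h
      · have hxP : x ∈ P := (mP x).2 (lt_of_lt_of_le hc1 h)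
        have h1 := hY x hxP
        rw [hx] at h1
        have h2 := hW2 x h
        show m ≤ α * x 0 - u x + κ
        rw [h2, hx]
        have h3 : -(α / Λ) * Real.log (1 - Real.exp (-(μ * s))) ≤ α * (s - G (u x) - m₀) := by
          have h4 : α / Λ * (-Real.log (1 - Real.exp (-(μ * s)))) ≤
              α / Λ * (Λ * (s - G (u x) - m₀)) := mul_le_mul_of_nonneg_left h1 (by positivity)
          have h5 : α / Λ * (Λ * (s - G (u x) - m₀)) = α * (s - G (u x) - m₀) := by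
            field_simp
          linarith
        linarith
      · show m ≤ α * x 0 - u x + κ
        rw [hx]
        linarith
    · intro δ hδ
      refine ⟨|κ|, fun x hx => ?_⟩
      have h1 := hsol.up x (by linarith)
      have h2 : 0 ≤ δ * ‖x‖ := by positivity
      have h3 := neg_abs_le κ
      show -(δ * ‖x‖) - |κ| ≤ α * x 0 - u x + κ
      linarith
  -- contradiction
  obtain ⟨x, hxP, hx⟩ := hm2 (m / α) (by positivity)
  have hfin : m ≤ α * (x 0 - G (u x) - m₀) := by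
    rcases le_total s (x 0) with h | h
    · exact (hW x h).trans (hW1 x hxP)
    · have h1 := hY x hxP
      have h2 : Real.log (1 - Real.exp (-(μ * x 0))) ≤ Real.log (1 - Real.exp (-(μ * s))) := by
        apply Real.log_le_log (hl0 _ (hPx x hxP)).1
        have : Real.exp (-(μ * s)) ≤ Real.exp (-(μ * x 0)) := by
          apply Real.exp_le_exp.2
          have : μ * x 0 ≤ μ * s := mul_le_mul_of_nonneg_left h hμ0.le
          linarith
        linarith
      have h3 : -Real.log (1 - Real.exp (-(μ * s))) ≤ Λ * (x 0 - G (u x) - m₀) := by linarith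
      have h4 : α / Λ * (-Real.log (1 - Real.exp (-(μ * s)))) ≤
          α / Λ * (Λ * (x 0 - G (u x) - m₀)) := mul_le_mul_of_nonneg_left h3 (by positivity)
      have h5 : α / Λ * (Λ * (x 0 - G (u x) - m₀)) = α * (x 0 - G (u x) - m₀) := by
        field_simp
      linarith
  have h6 : α * (x 0 - G (u x) - m₀) < m := by
    have h7 : α * (x 0 - G (u x) - m₀) < α * (m / α) := by
      apply mul_lt_mul_of_pos_left _ hα0
      linarith
    rwa [mul_div_cancel₀ _ hα0.ne'] at h7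
  linarith

end Pool.Agent.Helper42.BG
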